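import Pool.Agent.Helper85.E5.Low3

/-!
# E5, leaf D: the near roots and the mean where the variance is bounded
-/

set_option autoImplicit false

namespace Pool.Agent.Helper27.E5

open Polynomial EVC Pool.Agent.Helper74.EV4 Pool.Agent.Helper49.ZB Pool.Agent.Helper85.E5

/-- the kernel and the mean of a near root, in terms of `y = r / ‖ρ‖` -/
theorem near_root {r : ℝ} (hr : 0 < r) {ρ : ℂ} (him : ρ.im = 0) (hre : ρ.re < 0) :
    (p r ρ * (1 - p r ρ)).re = (‖ρ‖⁻¹ * r) / (1 + ‖ρ‖⁻¹ * r) ^ 2 ∧ (p r ρ).re = (‖ρ‖⁻¹ * r) / (1 + ‖ρ‖⁻¹ * r) := by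
  obtain ⟨h1, h2, h3⟩ := real_root hr him hre
  constructor
  · rw [h1, Complex.ofReal_re]
    field_simp
    ring
  · unfold p
    have h4 : ((r : ℂ) - ρ) = ((r + ‖ρ‖ : ℝ) : ℂ) := by
      conv_lhs => rw [h2]
      push_cast
      ring
    rw [h4, ← Complex.ofReal_div, Complex.ofReal_re]
    field_simp
    ring

/-- the far roots -/
theorem far_bounds {r c0 : ℝ} (hr : 0 < r) (hc0 : 0 < c0) (h2 : 2 * r ≤ c0) {ρ : ℂ} (hρ : c0 ≤ ‖ρ‖) :
    |(p r ρ * (1 - p r ρ)).re| ≤ 4 * r / c0 ∧ |(p r ρ).re| ≤ 2 * r / c0 := by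
  have hn : 0 < ‖ρ‖ := by linarith
  have h3 : ‖ρ‖ / 2 ≤ ‖(r : ℂ) - ρ‖ := by
    have := norm_sub_norm_le ρ (r : ℂ)
    rw [norm_sub_rev, Complex.norm_real, Real.norm_of_nonneg hr.le] at this
    linarith
  have h4 : (r : ℂ) - ρ ≠ 0 := by
    apply norm_pos_iff.1
    linarith
  have h5 : 0 < ‖(r : ℂ) - ρ‖ := norm_pos_iff.2 h4
  have hp : ‖p r ρ‖ ≤ 2 * r / c0 := by
    unfold p
    rw [norm_div, Complex.norm_real, Real.norm_of_nonneg hr.le, div_le_div_iff₀ h5 hc0]
    calc r * c0 ≤ r * ‖ρ‖ := by gcongr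
      _ = 2 * r * (‖ρ‖ / 2) := by ring
      _ ≤ _ := by gcongr
  have hq : ‖1 - p r ρ‖ ≤ 2 := by
    have e1 : 1 - p r ρ = -ρ / ((r : ℂ) - ρ) := by
      unfold p
      field_simp
      ring
    rw [e1, norm_div, norm_neg, div_le_iff₀ h5]
    linarith
  constructor
  · refine (Complex.abs_re_le_norm _).trans ?_
    rw [norm_mul]
    calc ‖p r ρ‖ * ‖1 - p r ρ‖ ≤ (2 * r / c0) * 2 := by gcongr
      _ = 4 * r / c0 := by ring
  · exact (Complex.abs_re_le_norm _).trans hp

open Classical in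
theorem sum_split (S : Multiset ℝ) (r : ℝ) (f : ℝ → ℝ) : (S.map f).sum =
    ((S.filter fun v => 1 ≤ v * r).map f).sum + ((S.filter fun v => ¬ 1 ≤ v * r).map f).sum := by
  conv_lhs => rw [← Multiset.filter_add_not (fun v => 1 ≤ v * r) S]
  rw [Multiset.map_add, Multiset.sum_add]

theorem abs_sum_le {α : Type*} (S : Multiset α) (f : α → ℝ) (B : ℝ) (h : ∀ x ∈ S, |f x| ≤ B) :
    |(S.map f).sum| ≤ Multiset.card S * B := by
  induction S using Multiset.induction_on with
  | empty => simp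
  | cons a s ih =>
    rw [Multiset.map_cons, Multiset.sum_cons, Multiset.card_cons]
    have h1 := h a (Multiset.mem_cons_self _ _)
    have h2 := ih fun x hx => h x (Multiset.mem_cons_of_mem hx)
    refine (abs_add_le _ _).trans ?_
    push_cast
    linarith

theorem abs_sum_sub_le {α : Type*} (S : Multiset α) (f g k : α → ℝ) (h : ∀ x ∈ S, |f x - g x| ≤ k x) :
    |(S.map f).sum - (S.map g).sum| ≤ (S.map k).sum := by
  induction S using Multiset.induction_on with
  | empty => simp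
  | cons a s ih =>
    rw [Multiset.map_cons, Multiset.sum_cons, Multiset.map_cons, Multiset.sum_cons, Multiset.map_cons, Multiset.sum_cons]
    have h1 := h a (Multiset.mem_cons_self _ _)
    have h2 := ih fun x hx => h x (Multiset.mem_cons_of_mem hx)
    have e : f a + (s.map f).sum - (g a + (s.map g).sum) = (f a - g a) + ((s.map f).sum - (s.map g).sum) := by ring
    rw [e]
    exact (abs_add_le _ _).trans (add_le_add h1 h2)

open Classical in
/-- LEAF D -/
theorem counts {b c T κ : ℝ} (h : Adm b c T κ) {L : ℕ} {P : ℝ[X]} (hP : Hyp b c T κ L P) {r V0 C : ℝ} (hr : 0 < r)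
    (hrc : 2 * r ≤ c0 c κ) (hrL : r * L ≤ C) (hV : V P r ≤ V0) :
    (((na c κ P).filter fun v => 1 ≤ v * r).map fun v => (v * r)⁻¹).sum + (((na c κ P).filter fun v => ¬ 1 ≤ v * r).map fun v => v * r).sum ≤
      4 * (V0 + 2 * C / c0 c κ) ∧
    |mean P r - Multiset.card ((na c κ P).filter fun v => 1 ≤ v * r)| ≤ 2 * (V0 + 2 * C / c0 c κ) + C / c0 c κ := by
  have hc0 := c0_pos h
  obtain ⟨d, hd⟩ : ∃ d, d = c0 c κ := ⟨_, rfl⟩
  rw [← hd] at hc0 hrc ⊢
  -- the two kernels on the near roots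
  have hnear : ∀ ρ ∈ nr c κ P, (p r ρ * (1 - p r ρ)).re = (‖ρ‖⁻¹ * r) / (1 + ‖ρ‖⁻¹ * r) ^ 2 ∧
      (p r ρ).re = (‖ρ‖⁻¹ * r) / (1 + ‖ρ‖⁻¹ * r) := by
    intro ρ hρ
    obtain ⟨h1, h2⟩ := mem_nr.1 hρ
    obtain ⟨h3, h4⟩ := hP.neg ρ h1 (h2.trans_le (c0_le h))
    exact near_root hr h3 h4
  have hfar : ∀ ρ ∈ fr c κ P, |(p r ρ * (1 - p r ρ)).re| ≤ 4 * r / d ∧ |(p r ρ).re| ≤ 2 * r / d := by
    intro ρ hρ
    obtain ⟨-, h2⟩ := mem_fr.1 hρ
    exact far_bounds hr hc0 hrc (hd ▸ h2)
  have hcard : 2 * (Multiset.card (fr c κ P) : ℝ) ≤ L := by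
    have h3 : Multiset.card (fr c κ P) ≤ Multiset.card (Z P) := by
      rw [← nr_add_fr c κ P, Multiset.card_add]
      omega
    have h4 := card_Z_le hP.toNice
    have h5 : (Multiset.card (fr c κ P) : ℝ) ≤ Multiset.card (Z P) := by exact_mod_cast h3
    linarith
  -- the sum of the kernels over the near roots
  have hS : ((na c κ P).map fun v => v * r / (1 + v * r) ^ 2).sum = ((nr c κ P).map fun ρ => (p r ρ * (1 - p r ρ)).re).sum := by
    unfold na
    rw [Multiset.map_map]
    congr 1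
    refine Multiset.map_congr rfl fun ρ hρ => ?_
    exact (hnear ρ hρ).1.symm
  have hM : ((na c κ P).map fun v => v * r / (1 + v * r)).sum = ((nr c κ P).map fun ρ => (p r ρ).re).sum := by
    unfold na
    rw [Multiset.map_map]
    congr 1
    refine Multiset.map_congr rfl fun ρ hρ => ?_
    exact (hnear ρ hρ).2.symm
  have hVs : V P r = ((nr c κ P).map fun ρ => (p r ρ * (1 - p r ρ)).re).sum + ((fr c κ P).map fun ρ => (p r ρ * (1 - p r ρ)).re).sum := by
    unfold V
    rw [re_sum_map]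
    conv_lhs => rw [← nr_add_fr c κ P]
    rw [Multiset.map_add, Multiset.sum_add]
  have hMs : mean P r = ((nr c κ P).map fun ρ => (p r ρ).re).sum + ((fr c κ P).map fun ρ => (p r ρ).re).sum := by
    have h1 := congrArg Complex.re (mean_eq hP.toNice hr)
    rw [Complex.ofReal_re, re_sum_map] at h1
    rw [← h1]
    conv_lhs => rw [← nr_add_fr c κ P]
    rw [Multiset.map_add, Multiset.sum_add]
  have hrL' : (Multiset.card (fr c κ P) : ℝ) * (2 * r / d) ≤ C / d := by
    rw [mul_div_assoc', div_le_div_iff_of_pos_right hc0]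
    nlinarith
  have hF1 : |((fr c κ P).map fun ρ => (p r ρ * (1 - p r ρ)).re).sum| ≤ 2 * C / d := by
    refine (abs_sum_le _ _ _ fun ρ hρ => (hfar ρ hρ).1).trans ?_
    have e : (Multiset.card (fr c κ P) : ℝ) * (4 * r / d) = 2 * (Multiset.card (fr c κ P) * (2 * r / d)) := by ring
    rw [e]
    have e2 : 2 * C / d = 2 * (C / d) := by ring
    rw [e2]
    linarith
  have hF2 : |((fr c κ P).map fun ρ => (p r ρ).re).sum| ≤ C / d :=
    (abs_sum_le _ _ _ fun ρ hρ => (hfar ρ hρ).2).trans hrL'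
  have hN : ((na c κ P).map fun v => v * r / (1 + v * r) ^ 2).sum ≤ V0 + 2 * C / d := by
    rw [hS]
    have := (abs_le.1 hF1).1
    linarith
  have hy : ∀ v ∈ na c κ P, 0 ≤ v * r := fun v hv => mul_nonneg (na_nonneg c κ P v hv) hr.le
  constructor
  · rw [sum_split _ r] at hN
    have h1 : (((na c κ P).filter fun v => 1 ≤ v * r).map fun v => (v * r)⁻¹).sum ≤
        4 * (((na c κ P).filter fun v => 1 ≤ v * r).map fun v => v * r / (1 + v * r) ^ 2).sum := by
      rw [← Multiset.sum_map_mul_left]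
      refine Multiset.sum_map_le_sum_map _ _ fun v hv => ?_
      obtain ⟨-, h2⟩ := Multiset.mem_filter.1 hv
      have h3 : 0 < v * r := by linarith
      rw [inv_eq_one_div, mul_div_assoc', div_le_div_iff₀ h3 (by positivity)]
      nlinarith
    have h2 : (((na c κ P).filter fun v => ¬ 1 ≤ v * r).map fun v => v * r).sum ≤
        4 * (((na c κ P).filter fun v => ¬ 1 ≤ v * r).map fun v => v * r / (1 + v * r) ^ 2).sum := by
      rw [← Multiset.sum_map_mul_left]
      refine Multiset.sum_map_le_sum_map _ _ fun v hv => ?_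
      obtain ⟨h1, h2⟩ := Multiset.mem_filter.1 hv
      have h3 := hy v h1
      push Not at h2
      rw [mul_div_assoc', le_div_iff₀ (by positivity)]
      have h4 : (1 + v * r) ^ 2 ≤ 4 := by nlinarith
      nlinarith
    linarith
  · rw [hMs, ← hM]
    have h1 : |((na c κ P).map fun v => v * r / (1 + v * r)).sum -
        ((na c κ P).map fun v => if 1 ≤ v * r then (1 : ℝ) else 0).sum| ≤
        ((na c κ P).map fun v => 2 * (v * r / (1 + v * r) ^ 2)).sum := by
      refine abs_sum_sub_le _ _ _ _ fun v hv => ?_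
      have h3 := hy v hv
      obtain ⟨y, hyd⟩ : ∃ y, y = v * r := ⟨_, rfl⟩
      rw [← hyd] at h3 ⊢
      have hy1 : 0 < 1 + y := by linarith
      split_ifs with h4
      · have e : y / (1 + y) - 1 = -(1 / (1 + y)) := by
          field_simp
          ring
        rw [e, abs_neg, abs_of_nonneg (by positivity), mul_div_assoc', div_le_div_iff₀ hy1 (by positivity)]
        nlinarith
      · push Not at h4
        rw [sub_zero, abs_of_nonneg (by positivity), mul_div_assoc', div_le_div_iff₀ hy1 (by positivity)]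
        have h5 : y * (1 + y) * (1 + y) ≤ y * (1 + y) * 2 := by
          apply mul_le_mul_of_nonneg_left (by linarith) (by positivity)
        nlinarith
    have h2 : ((na c κ P).map fun v => if 1 ≤ v * r then (1 : ℝ) else 0).sum =
        Multiset.card ((na c κ P).filter fun v => 1 ≤ v * r) := by
      rw [sum_ite_filter]
      simp
    rw [h2, Multiset.sum_map_mul_left] at h1
    have h3 := abs_le.1 h1
    have h4 := abs_le.1 hF2
    rw [abs_le]
    constructor <;> linarith [h3.1, h3.2, h4.1, h4.2]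

end Pool.Agent.Helper27.E5
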