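import Pool.Agent.Helper85.E5.UL

/-!
# E5, leaf B2: the truncated sequence is in the class `UL`
-/

set_option autoImplicit false

namespace Pool.Agent.Helper27.E5

open Polynomial EVC Pool.Agent.Helper74.EV4 Pool.Agent.Helper49.ZB Pool.Agent.Helper85.E5

theorem yq_le {e : ℕ → ℝ} {D : ℕ} {lam : ℝ}
    (hy : ∀ s, s + 1 ≤ D → 1 / (4 * lam) ≤ yq e (s + 1) - yq e s ∧ yq e (s + 1) - yq e s ≤ 2 / lam) :
    ∀ s ≤ D, yq e s ≤ 2 / lam * s := by
  intro s
  induction s with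
  | zero =>
    intro _
    change (0 : ℝ) ≤ 2 / lam * ((0 : ℕ) : ℝ)
    simp
  | succ s ih =>
    intro hs
    have h1 := ih (by omega)
    have h2 := (hy s hs).2
    push_cast
    linarith

theorem yq_nonneg {e : ℕ → ℝ} {D : ℕ} (hpos : ∀ j ≤ D, 0 < e j) : ∀ s ≤ D, 0 ≤ yq e s := by
  intro s hs
  rcases s with _ | s
  · exact le_rfl
  · change 0 ≤ e s / e (s + 1)
    exact div_nonneg (hpos s (by omega)).le (hpos (s + 1) hs).le

theorem yq_step {e : ℕ → ℝ} {D : ℕ} {lam A : ℝ} (hlam : 0 < lam) (hA : 8 * ((D : ℝ) + 1) ≤ A)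
    (hy : ∀ s, s + 1 ≤ D → 1 / (4 * lam) ≤ yq e (s + 1) - yq e s ∧ yq e (s + 1) - yq e s ≤ 2 / lam) (s : ℕ) (hs : s + 1 ≤ D) :
    yq e s * ((s : ℝ) + 1 + A) ≤ yq e (s + 1) * ((s : ℝ) + A) := by
  have h1 := yq_le hy s (by omega)
  have h2 := (hy s hs).1
  have h3 : (s : ℝ) + 1 ≤ D := by exact_mod_cast hs
  have h4 : (0 : ℝ) ≤ s := Nat.cast_nonneg s
  have h5 : 0 < (s : ℝ) + A := by linarith
  have h6 : 1 / (4 * lam) * ((s : ℝ) + A) ≤ (yq e (s + 1) - yq e s) * ((s : ℝ) + A) := mul_le_mul_of_nonneg_right h2 h5.le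
  have h7 : 2 / lam * (s : ℝ) ≤ 1 / (4 * lam) * ((s : ℝ) + A) := by
    rw [div_mul_eq_mul_div, div_mul_eq_mul_div, div_le_div_iff₀ hlam (by positivity)]
    have h8 : 8 * (s : ℝ) ≤ s + A := by linarith
    nlinarith [mul_le_mul_of_nonneg_left h8 hlam.le]
  nlinarith

theorem yq_mono {e : ℕ → ℝ} {D : ℕ} {lam A : ℝ} (hlam : 0 < lam) (hA : 8 * ((D : ℝ) + 1) ≤ A) (hpos : ∀ j ≤ D, 0 < e j)
    (hy : ∀ s, s + 1 ≤ D → 1 / (4 * lam) ≤ yq e (s + 1) - yq e s ∧ yq e (s + 1) - yq e s ≤ 2 / lam) (s : ℕ) :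
    ∀ d, s + d ≤ D → yq e s * ((s : ℝ) + d + A) ≤ yq e (s + d) * ((s : ℝ) + A) := by
  intro d
  induction d with
  | zero =>
    intro _
    simp
  | succ d ih =>
    intro hd
    have h1 := ih (by omega)
    have h2 := yq_step hlam hA hy (s + d) (by omega)
    have h3 := yq_nonneg hpos s (by omega)
    have h4 := yq_nonneg hpos (s + d) (by omega)
    have h5 : (0 : ℝ) ≤ s := Nat.cast_nonneg s
    have h6 : (0 : ℝ) ≤ d := Nat.cast_nonneg d
    have h7 : (0 : ℝ) ≤ D := Nat.cast_nonneg D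
    have hA0 : 0 < A := by linarith
    have h8 : 0 < (s : ℝ) + d + A := by linarith
    have h9 : 0 < (s : ℝ) + A := by linarith
    push_cast at h2 ⊢
    have k1 : yq e s * ((s : ℝ) + d + A) * ((s : ℝ) + d + 1 + A) ≤ yq e (s + d) * ((s : ℝ) + A) * ((s : ℝ) + d + 1 + A) :=
      mul_le_mul_of_nonneg_right h1 (by linarith)
    have k2 : yq e (s + d) * ((s : ℝ) + d + 1 + A) * ((s : ℝ) + A) ≤ yq e (s + d + 1) * ((s : ℝ) + d + A) * ((s : ℝ) + A) :=
      mul_le_mul_of_nonneg_right h2 h9.le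
    have k3 : ((s : ℝ) + d + A) * (yq e s * ((s : ℝ) + (d + 1) + A)) ≤ ((s : ℝ) + d + A) * (yq e (s + d + 1) * ((s : ℝ) + A)) := by
      nlinarith
    exact le_of_mul_le_mul_left k3 h8

/-- LEAF B2 -/
theorem tr_UL {e : ℕ → ℝ} {D : ℕ} {lam A : ℝ} (hlam : 0 < lam) (hA : 8 * ((D : ℝ) + 1) ≤ A) (hpos : ∀ j ≤ D, 0 < e j)
    (hy : ∀ s, s + 1 ≤ D → 1 / (4 * lam) ≤ yq e (s + 1) - yq e s ∧ yq e (s + 1) - yq e s ≤ 2 / lam) : UL A (cz (tr e D)) := by
  have key : ∀ n : ℤ, cz (tr e D) n = if 0 ≤ n ∧ n ≤ D then e n.toNat else 0 := by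
    intro n
    rcases lt_or_ge n 0 with h | h
    · rw [cz_neg _ h, if_neg (by omega)]
    · obtain ⟨m, rfl⟩ := Int.eq_ofNat_of_zero_le h
      rw [cz_nat, tr_coeff, Int.toNat_natCast]
      congr 1
      exact propext (by omega)
  have hnn : ∀ n : ℤ, 0 ≤ cz (tr e D) n := by
    intro n
    rw [key]
    split_ifs with h
    · exact (hpos _ (by omega)).le
    · exact le_rfl
  refine ⟨hnn, fun n hn => cz_neg _ hn, ?_⟩
  intro i j hij
  have hD : (0 : ℝ) ≤ D := Nat.cast_nonneg D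
  by_cases h1 : 0 ≤ i - 1
  · by_cases h2 : j + 1 ≤ D
    · obtain ⟨s, hs⟩ : ∃ s : ℕ, (s : ℤ) = i - 1 := ⟨(i - 1).toNat, by omega⟩
      obtain ⟨d, hd⟩ : ∃ d : ℕ, (d : ℤ) = j - i := ⟨(j - i).toNat, by omega⟩
      have e1 : i = ((s + 1 : ℕ) : ℤ) := by push_cast; omega
      have e2 : j = ((s + 1 + d : ℕ) : ℤ) := by push_cast; omega
      have e3 : i - 1 = ((s : ℕ) : ℤ) := hs.symm
      have e4 : j + 1 = ((s + 1 + d + 1 : ℕ) : ℤ) := by push_cast; omega
      have m := yq_mono hlam hA hpos hy (s + 1) (d + 1) (by omega)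
      have p0 := hpos s (by omega)
      have p1 := hpos (s + 1) (by omega)
      have p2 := hpos (s + 1 + d) (by omega)
      have p3 := hpos (s + 1 + d + 1) (by omega)
      have c1 : cz (tr e D) (i - 1) = e s := by
        rw [e3, cz_nat, tr_coeff, if_pos (by omega)]
      have c2 : cz (tr e D) i = e (s + 1) := by
        rw [e1, cz_nat, tr_coeff, if_pos (by omega)]
      have c3 : cz (tr e D) j = e (s + 1 + d) := by
        rw [e2, cz_nat, tr_coeff, if_pos (by omega)]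
      have c4 : cz (tr e D) (j + 1) = e (s + 1 + d + 1) := by
        rw [e4, cz_nat, tr_coeff, if_pos (by omega)]
      rw [c1, c2, c3, c4]
      change e s / e (s + 1) * (((s + 1 : ℕ) : ℝ) + ((d + 1 : ℕ) : ℝ) + A) ≤ e (s + 1 + d) / e (s + 1 + d + 1) * (((s + 1 : ℕ) : ℝ) + A) at m
      have r1 : ((j : ℤ) : ℝ) + 1 = ((s + 1 : ℕ) : ℝ) + ((d + 1 : ℕ) : ℝ) := by
        rw [e2]
        push_cast
        ring
      have r2 : ((i : ℤ) : ℝ) = ((s + 1 : ℕ) : ℝ) := by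
        rw [e1]
        push_cast
        ring
      rw [r1, r2]
      rw [div_mul_eq_mul_div, div_mul_eq_mul_div, div_le_div_iff₀ p1 p3] at m
      linarith
    · have h3 : cz (tr e D) (j + 1) = 0 := by rw [key, if_neg (by omega)]
      rw [h3, mul_zero, mul_zero]
      have h4 : (0 : ℝ) < i := by
        have : (0 : ℤ) < i := by omega
        exact_mod_cast this
      exact mul_nonneg (by linarith) (mul_nonneg (hnn _) (hnn _))
  · have h3 : cz (tr e D) (i - 1) = 0 := cz_neg _ (by omega)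
    rw [h3, zero_mul, mul_zero]
    rcases lt_or_ge i 0 with h4 | h4
    · rw [cz_neg _ h4, zero_mul, mul_zero]
    · have h5 : (0 : ℝ) ≤ i := by exact_mod_cast h4
      exact mul_nonneg (by linarith) (mul_nonneg (hnn _) (hnn _))

end Pool.Agent.Helper27.E5
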